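import Mathlib
import Pool.Agent.Lib.MP_d73f62_nt.Final

set_option autoImplicit false

namespace Pool.Agent.Results.MP_d73f62_nt.IntegerImaginary

open Pool.Agent.Lib.MP_d73f62_nt

/-- The D'Arcais polynomials do not vanish at the nonzero integer points `i t` of the imaginary
axis. -/
theorem result (n : ℕ) (t : ℤ) (ht : t ≠ 0) :
    Polynomial.aeval ((t : ℂ) * Complex.I) (dArcais n) ≠ 0 :=
  int_all n t ht

end Pool.Agent.Results.MP_d73f62_nt.IntegerImaginary
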