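import Mathlib
import Pool.Agent.Lib.MP_d73f62_nt.RealGen

set_option autoImplicit false

namespace Pool.Agent.Results.MP_d73f62_nt.RealRegion

open Pool.Agent.Lib.MP_d73f62_nt

/-- The D'Arcais polynomial `P_n`, `n ≥ 1`, does not vanish at `i t` when `t` is real and
`|t| ≥ 10^11` or `|t| ≥ 10^22 (1 + log n)^2 / n`. -/
theorem result (n : ℕ) (hn : 1 ≤ n) (t : ℝ)
    (ht : 10 ^ 11 ≤ |t| ∨ 10 ^ 22 * (1 + Real.log n) ^ 2 / n ≤ |t|) :
    Polynomial.aeval ((t : ℂ) * Complex.I) (dArcais n) ≠ 0 :=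
  real_region n hn t ht

end Pool.Agent.Results.MP_d73f62_nt.RealRegion
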